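import Mathlib

/-!
# Mod `p` modularity for `SL₃`: definitions

The group is `G = SL₃` with the diagonal torus and the upper triangular Borel subgroup, the dual
group is `PGL₃`. A character of the torus is given by `x : Fin 3 → ℤ` (the character
`diag(t₀, t₁, t₂) ↦ ∏ tᵢ ^ xᵢ`), the corresponding cocharacter of the dual torus is
`z ↦ diag(z ^ x₀, z ^ x₁, z ^ x₂)` modulo scalars.
-/

set_option autoImplicit false

namespace Pool.Agent.H177Z.MP

open Matrix
open scoped MatrixGroups TensorProduct Kronecker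

/-- An algebraic closure of the rationals. -/
abbrev Qb : Type := AlgebraicClosure ℚ

/-- The absolute Galois group of the rationals, with the Krull topology. -/
abbrev Gal : Type := Qb ≃ₐ[ℚ] Qb

/-- The mod `p` cyclotomic character with values in `𝔽_pˣ ⊆ kˣ`. -/
noncomputable def omega (p : ℕ) [Fact p.Prime] (k : Type) [Field k] [CharP k p] : Gal →* kˣ :=
  (Units.map (ZMod.castHom (dvd_refl p) k).toMonoidHom).comp
    ((modularCyclotomicCharacter Qb (HasEnoughRootsOfUnity.natCard_rootsOfUnity Qb p)).comp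
      (MulSemiringAction.toRingAut Gal Qb))

/-- `c` is a complex conjugation. -/
def IsComplexConj (c : Gal) : Prop :=
  ∃ ι : Qb →+* ℂ, ∀ z, ι (c z) = starRingEnd ℂ (ι z)

/-- The place of `Qb` given by the valuation ring `O` lies over the prime `s`. -/
def Over (s : ℕ) (O : ValuationSubring Qb) : Prop := O.valuation (s : Qb) < 1

/-- The Lie algebra of `PGL₃` over `k`: matrices modulo scalar matrices. -/
abbrev LiePGL (k : Type) [Field k] : Type :=
  Matrix (Fin 3) (Fin 3) k ⧸ Submodule.span k {(1 : Matrix (Fin 3) (Fin 3) k)}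

/-- The adjoint action `X ↦ A X A⁻¹` on the Lie algebra of `PGL₃`. -/
noncomputable def Ad {k : Type} [Field k] (A : GL (Fin 3) k) : LiePGL k →ₗ[k] LiePGL k :=
  Submodule.mapQ _ _
    ((LinearMap.mulLeft k (A : Matrix (Fin 3) (Fin 3) k)).comp
      (LinearMap.mulRight k ((A⁻¹ : GL (Fin 3) k) : Matrix (Fin 3) (Fin 3) k)))
    (by
      rw [Submodule.span_le]
      rintro _ rfl
      simp only [SetLike.mem_coe, Submodule.mem_comap, LinearMap.comp_apply,
        LinearMap.mulLeft_apply, LinearMap.mulRight_apply, one_mul, Units.mul_inv]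
      exact Submodule.mem_span_singleton_self _)

/-- Oddness: `Ad (r c)` has trace `rank G - 2 rank K = 2 - 2 * 1` (`K = SO(3)`). -/
def IsOdd {k : Type} [Field k] (r : Gal →* PGL(3, k)) : Prop :=
  ∀ c, IsComplexConj c → ∀ A : GL (Fin 3) k, ProjGenLinGroup.mk A = r c →
    LinearMap.trace k (LiePGL k) (Ad A) = ((2 - 2 * 1 : ℤ) : k)

/-- `r` is nearly ordinary of type `x` at `p`. -/
def NearlyOrdinary (p : ℕ) [Fact p.Prime] {k : Type} [Field k] [CharP k p] (x : Fin 3 → ℤ)
    (r : Gal →* PGL(3, k)) : Prop :=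
  ∀ O : ValuationSubring Qb, Over p O → ∃ γ : PGL(3, k), ∀ σ : O.decompositionSubgroup ℚ,
    ∃ B : GL (Fin 3) k, ProjGenLinGroup.mk B = γ * r σ * γ⁻¹ ∧
      (B : Matrix (Fin 3) (Fin 3) k).BlockTriangular id ∧
      (σ ∈ O.inertiaSubgroup ℚ → ∃ c : kˣ, ∀ i,
        (B : Matrix (Fin 3) (Fin 3) k) i i = ((c * omega p k σ ^ x i : kˣ) : k))

/-- `r` is unramified at the prime `s`. -/
def UnramifiedAt (s : ℕ) {k : Type} [Field k] (r : Gal →* PGL(3, k)) : Prop :=
  ∀ O : ValuationSubring Qb, Over s O → ∀ σ : O.decompositionSubgroup ℚ,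
    σ ∈ O.inertiaSubgroup ℚ → r σ = 1

/-- `x` pairs with both simple coroots to at least `2`. -/
def StronglyRegular (x : Fin 3 → ℤ) : Prop := 2 ≤ x 0 - x 1 ∧ 2 ≤ x 1 - x 2

/-- The half sum of the positive roots, the character `t₀ ^ 2 t₁ = t₀ / t₂`. -/
def rhoWt : Fin 3 → ℤ := ![2, 1, 0]

/-- Tensors in `V ⊗ V ⊗ V^*`, `V = R³`, in coordinates. -/
abbrev Ten (R : Type) : Type := Fin 3 × Fin 3 × Fin 3 → R

/-- The matrix of `g ⊗ g ⊗ (g⁻¹)ᵀ`. -/
def kron {R : Type} [CommRing R] (g : SL(3, R)) :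
    Matrix (Fin 3 × Fin 3 × Fin 3) (Fin 3 × Fin 3 × Fin 3) R :=
  (g : Matrix (Fin 3) (Fin 3) R) ⊗ₖ ((g : Matrix (Fin 3) (Fin 3) R) ⊗ₖ
    ((g⁻¹ : SL(3, R)) : Matrix (Fin 3) (Fin 3) R)ᵀ)

theorem kron_one {R : Type} [CommRing R] : kron (1 : SL(3, R)) = 1 := by
  simp [kron]

theorem kron_mul {R : Type} [CommRing R] (g h : SL(3, R)) : kron (g * h) = kron g * kron h := by
  simp only [kron, _root_.mul_inv_rev, Matrix.SpecialLinearGroup.coe_mul, transpose_mul,
    mul_kronecker_mul]

/-- The representation of `SL₃(R)` on `V ⊗ V ⊗ V^*`. -/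
noncomputable def rhoTen (R : Type) [CommRing R] : Representation R SL(3, R) (Ten R) where
  toFun g := Matrix.toLin' (kron g)
  map_one' := by rw [kron_one, Matrix.toLin'_one]; rfl
  map_mul' g h := by rw [kron_mul, Matrix.toLin'_mul]; rfl

theorem rhoTen_apply {R : Type} [CommRing R] (g : SL(3, R)) (t : Ten R) (i j l : Fin 3) :
    rhoTen R g t (i, j, l) = ∑ a, ∑ b, ∑ c, g i a * (g j b * (g⁻¹ : SL(3, R)) c l) * t (a, b, c) := by
  show (kron g *ᵥ t) (i, j, l) = _
  simp only [Matrix.mulVec, dotProduct, Fintype.sum_prod_type, kron, kroneckerMap_apply,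
    transpose_apply]

/-- The kernel of the contraction `Sym² V ⊗ V^* → V`: tensors symmetric in the first two
indices and traceless. -/
def W (R : Type) [CommRing R] : Submodule R (Ten R) where
  carrier := {t | (∀ i j l, t (i, j, l) = t (j, i, l)) ∧ ∀ j, ∑ i, t (i, j, i) = 0}
  add_mem' := by
    rintro a b ⟨ha, ha'⟩ ⟨hb, hb'⟩
    refine ⟨fun i j l => by simp only [Pi.add_apply, ha i j l, hb i j l], fun j => ?_⟩
    simp only [Pi.add_apply, Finset.sum_add_distrib, ha' j, hb' j, add_zero]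
  zero_mem' := ⟨fun _ _ _ => rfl, fun _ => by simp⟩
  smul_mem' := by
    rintro c a ⟨ha, ha'⟩
    refine ⟨fun i j l => by simp only [Pi.smul_apply, ha i j l], fun j => ?_⟩
    simp only [Pi.smul_apply, smul_eq_mul, ← Finset.mul_sum, ha' j, mul_zero]

theorem W_stable (R : Type) [CommRing R] (g : SL(3, R)) : W R ≤ (W R).comap (rhoTen R g) := by
  rintro t ⟨h1, h2⟩
  refine ⟨fun i j l => ?_, fun j => ?_⟩
  · rw [rhoTen_apply, rhoTen_apply, Finset.sum_comm]
    refine Finset.sum_congr rfl fun a _ => Finset.sum_congr rfl fun b _ =>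
      Finset.sum_congr rfl fun c _ => ?_
    rw [h1 b a c]
    ring
  · have h3 : ∀ c a, ∑ i, (g⁻¹ : SL(3, R)) c i * g i a = if c = a then 1 else 0 := by
      intro c a
      have := congrFun (congrFun (congrArg (fun z : SL(3, R) => (z : Matrix (Fin 3) (Fin 3) R))
        (inv_mul_cancel g)) c) a
      simpa only [Matrix.SpecialLinearGroup.coe_mul, Matrix.mul_apply,
        Matrix.SpecialLinearGroup.coe_one, Matrix.one_apply] using this
    have h4 : ∑ i, rhoTen R g t (i, j, i)
        = ∑ b, g j b * ∑ a, ∑ c, (∑ i, (g⁻¹ : SL(3, R)) c i * g i a) * t (a, b, c) := by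
      simp only [rhoTen_apply, Fin.sum_univ_three]
      ring
    show ∑ i, rhoTen R g t (i, j, i) = 0
    rw [h4]
    simp only [h3, ite_mul, one_mul, zero_mul, Finset.sum_ite_eq', Finset.mem_univ, if_true, h2,
      mul_zero, Finset.sum_const_zero]

/-- The representation of `SL₃(R)` on `W R` (of rank `15`). -/
noncomputable def rho (R : Type) [CommRing R] : Representation R SL(3, R) (W R) :=
  (rhoTen R).subrepresentation (W R) (W_stable R)

/-- The action of `SL₃(ℤ)` on `W R`. -/
noncomputable def rhoZ (R : Type) [CommRing R] : Representation R SL(3, ℤ) (W R) :=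
  (rho R).comp (Matrix.SpecialLinearGroup.map (Int.castRingHom R))

/-- `M` is stable under `SL₃(ℤ)`. -/
def Stable (M : Submodule ℤ (W ℚ)) : Prop := ∀ g : SL(3, ℤ), ∀ m ∈ M, rhoZ ℚ g m ∈ M

/-- The representation of `SL₃(ℤ)` on `k ⊗ M`. -/
noncomputable def latRep (k : Type) [Field k] (M : Submodule ℤ (W ℚ)) (hM : Stable M) :
    Representation k SL(3, ℤ) (k ⊗[ℤ] M) where
  toFun g := LinearMap.baseChange k (((rhoZ ℚ g).restrictScalars ℤ).restrict (hM g))
  map_one' := by
    have : ((rhoZ ℚ 1).restrictScalars ℤ).restrict (hM 1) = LinearMap.id := by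
      ext m
      simp
    rw [this, LinearMap.baseChange_id]
    rfl
  map_mul' g h := by
    have : ((rhoZ ℚ (g * h)).restrictScalars ℤ).restrict (hM (g * h))
        = (((rhoZ ℚ g).restrictScalars ℤ).restrict (hM g)).comp
          (((rhoZ ℚ h).restrictScalars ℤ).restrict (hM h)) := by
      ext m
      simp
    rw [this, LinearMap.baseChange_comp]
    rfl

end Pool.Agent.H177Z.MP
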