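import Pool.Agent.H177Z.MP.Defs

/-! The statements into which the proof is split. -/

set_option autoImplicit false

namespace Pool.Agent.H177Z.MP

open Matrix
open scoped MatrixGroups TensorProduct Topology

/-- The Galois side. -/
def S_gal : Prop :=
  ∀ (p : ℕ) [Fact p.Prime], 5 ≤ p → ∀ (k : Type) [Field k] [CharP k p],
    ∃ r : Gal →* PGL(3, k), IsLocallyConstant r ∧ IsOdd r ∧
      (∀ c, IsComplexConj c → ∃ A : GL (Fin 3) k, ProjGenLinGroup.mk A = r c ∧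
        (A : Matrix (Fin 3) (Fin 3) k) = Matrix.diagonal ![-1, 1, 1]) ∧
      NearlyOrdinary p ![5, 2, 0] r ∧ ∀ s : ℕ, s.Prime → s ≠ p → UnramifiedAt s r

/-- `W ℚ` is irreducible of highest weight `(3, 1, 0)` and has a stable lattice. -/
def S_hw : Prop :=
  (rho ℚ).IsIrreducible ∧
    (∃ v : W ℚ, v ≠ 0 ∧ ∀ b : SL(3, ℚ), (b : Matrix (Fin 3) (Fin 3) ℚ).BlockTriangular id →
      rho ℚ b v = (∏ i, b i i ^ ((![5, 2, 0] : Fin 3 → ℤ) i - rhoWt i)) • v) ∧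
    ∃ M : Submodule ℤ (W ℚ), Submodule.IsLattice ℚ M ∧ Stable M

/-- All stable lattices have the same reduction. -/
def S_lat : Prop :=
  ∀ (p : ℕ), p.Prime → 5 ≤ p → ∀ (k : Type) [Field k] [CharP k p]
    (M : Submodule ℤ (W ℚ)), Submodule.IsLattice ℚ M → ∀ hM : Stable M,
    ∃ e : (k ⊗[ℤ] M) ≃ₗ[k] W k, ∀ g m, e (latRep k M hM g m) = rhoZ k g (e m)

/-- Vertices are real matrices. -/
abbrev Vx : Type := Matrix (Fin 3) (Fin 3) ℝ

/-- The rank one form of an integer vector. -/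
def q (v : Fin 3 → ℤ) : Vx := Matrix.of fun i j => (v i : ℝ) * (v j : ℝ)

/-- The six vectors of the standard Selling cone. -/
def root : Fin 6 → Fin 3 → ℤ :=
  ![![1, 0, 0], ![0, 1, 0], ![0, 0, 1], ![1, -1, 0], ![1, 0, -1], ![0, 1, -1]]

/-- A face of rank three of the Voronoi-Selling decomposition. -/
def Face (φ : Finset Vx) : Prop :=
  (∃ g : SL(3, ℤ), ∀ A ∈ φ, ∃ r, A = q (g.1 *ᵥ root r)) ∧
    ∃ h : SL(3, ℤ), ∀ i : Fin 3, q (fun a => h.1 a i) ∈ φ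

/-- `Q` lies in the closed cone spanned by `φ`. -/
def InCone (φ : Finset Vx) (Q : Vx) : Prop :=
  ∃ p : Vx → ℝ, (∀ A, 0 ≤ p A) ∧ Q = ∑ A ∈ φ, p A • A

/-- The Selling cones form a locally finite fan that covers the positive definite forms. -/
def S_geo : Prop :=
  (∀ φ, Face φ → (∑ A ∈ φ, A).PosDef) ∧
    (∀ Q : Vx, Q.PosDef → ∃ φ₀, Face φ₀ ∧ ∀ φ, Face φ → (InCone φ Q ↔ φ₀ ⊆ φ)) ∧
    ∀ Q₀ : Vx, Q₀.PosDef → ∀ᶠ Q in 𝓝 Q₀, ∀ φ, Face φ → InCone φ Q → InCone φ Q₀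

/-- A nerve lemma for upper semicontinuous families of convex sets. -/
def S_nerve : Prop :=
  ∀ (ι : Type) (C : ι → Set Vx) (Good : Set ι → Prop) (X : Set Vx),
    (∀ i, Convex ℝ (C i)) →
    (∀ s t : Set ι, Good s → Good t → Good (s ∩ t) → Good (s ∪ t)) →
    (∀ x ∈ X, Good {i | x ∈ C i}) →
    (∀ x ∈ X, ∀ᶠ y in 𝓝 x, ∀ i, y ∈ C i → x ∈ C i) →
    ∀ K : Set Vx, K ⊆ X → IsCompact K → Convex ℝ K → K.Nonempty →
      Good {i | (K ∩ C i).Nonempty}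

end Pool.Agent.H177Z.MP
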